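import Pool.Agent.H86.FS.Class2

/-!
# Engines from generators
`Pre S`: the `Γ`-part of the engine relations on a set `S` of pairs. `Pre.closure`: they pass to the generated subgroup.
`Pre.union`: they pass to `⋃ g⁻ᴺ Γ gᴺ`.
-/

set_option autoImplicit false

open scoped commutatorElement
open Pool.Agent.H86.FS

namespace Pool.Agent.H75.FS

variable {G : Type*} [Group G]

/-- the `Γ`-part of the engine relations, for a set of pairs -/
structure Pre (S : Set (G × G)) : Prop where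
  th_sq : ∀ r ∈ S, r.1 * r.1 = 1
  et_sq : ∀ r ∈ S, r.2 * r.2 = 1
  th_th : ∀ r ∈ S, ∀ r' ∈ S, Commute r.1 r'.1
  et_et : ∀ r ∈ S, ∀ r' ∈ S, Commute r.2 r'.2
  c_th : ∀ r ∈ S, ∀ r' ∈ S, ∀ r'' ∈ S, Commute ⁅r.1, r'.2⁆ r''.1
  c_et : ∀ r ∈ S, ∀ r' ∈ S, ∀ r'' ∈ S, Commute ⁅r.1, r'.2⁆ r''.2
  symm : ∀ r ∈ S, ∀ r' ∈ S, ⁅r.1, r'.2⁆ = ⁅r'.1, r.2⁆

lemma cml (x x' y : G) : ⁅x * x', y⁆ = x * ⁅x', y⁆ * x⁻¹ * ⁅x, y⁆ := by
  simp only [commutatorElement_def]; group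

lemma cmr (x y y' : G) : ⁅x, y * y'⁆ = ⁅x, y⁆ * (y * ⁅x, y'⁆ * y⁻¹) := by
  simp only [commutatorElement_def]; group

lemma cj_of_comm {x y : G} (h : Commute x y) : x * y * x⁻¹ = y := by
  rw [h.eq, mul_inv_cancel_right]

lemma cml' {x x' y : G} (h : Commute x ⁅x', y⁆) : ⁅x * x', y⁆ = ⁅x', y⁆ * ⁅x, y⁆ := by
  rw [cml, cj_of_comm h]

lemma cmr' {x y y' : G} (h : Commute y ⁅x, y'⁆) : ⁅x, y * y'⁆ = ⁅x, y⁆ * ⁅x, y'⁆ := by
  rw [cmr, cj_of_comm h]

lemma comm_closure {S T : Set G} (h : ∀ s ∈ S, ∀ t ∈ T, Commute s t) :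
    ∀ x ∈ Subgroup.closure S, ∀ y ∈ Subgroup.closure T, Commute x y := by
  intro x hx y hy
  induction hx using Subgroup.closure_induction with
  | mem s hs =>
    induction hy using Subgroup.closure_induction with
    | mem t ht => exact h s hs t ht
    | one => exact Commute.one_right _
    | mul a b _ _ ha hb => exact ha.mul_right hb
    | inv a _ ha => exact ha.inv_right
  | one => exact Commute.one_left _
  | mul a b _ _ ha hb => exact ha.mul_left hb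
  | inv a _ ha => exact ha.inv_left

/-- all entries of a set of pairs -/
def ent (S : Set (G × G)) : Set G := {x | ∃ r ∈ S, x = r.1 ∨ x = r.2}

lemma fst_mem {S : Set (G × G)} {r : G × G} (hr : r ∈ Subgroup.closure S) :
    r.1 ∈ Subgroup.closure (Prod.fst '' S) := by
  induction hr using Subgroup.closure_induction with
  | mem s hs => exact Subgroup.subset_closure ⟨s, hs, rfl⟩
  | one => exact Subgroup.one_mem _
  | mul a b _ _ ha hb => exact Subgroup.mul_mem _ ha hb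
  | inv a _ ha => exact Subgroup.inv_mem _ ha

lemma snd_mem {S : Set (G × G)} {r : G × G} (hr : r ∈ Subgroup.closure S) :
    r.2 ∈ Subgroup.closure (Prod.snd '' S) := by
  induction hr using Subgroup.closure_induction with
  | mem s hs => exact Subgroup.subset_closure ⟨s, hs, rfl⟩
  | one => exact Subgroup.one_mem _
  | mul a b _ _ ha hb => exact Subgroup.mul_mem _ ha hb
  | inv a _ ha => exact Subgroup.inv_mem _ ha

lemma fst_ent (S : Set (G × G)) : Subgroup.closure (Prod.fst '' S) ≤ Subgroup.closure (ent S) := by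
  apply Subgroup.closure_mono
  rintro _ ⟨r, hr, rfl⟩
  exact ⟨r, hr, Or.inl rfl⟩

lemma snd_ent (S : Set (G × G)) : Subgroup.closure (Prod.snd '' S) ≤ Subgroup.closure (ent S) := by
  apply Subgroup.closure_mono
  rintro _ ⟨r, hr, rfl⟩
  exact ⟨r, hr, Or.inr rfl⟩

namespace Pre

variable {S : Set (G × G)}

theorem class2 (h : Pre S) : ∀ x ∈ Subgroup.closure (ent S), ∀ y ∈ Subgroup.closure (ent S),
    ∀ z ∈ Subgroup.closure (ent S), Commute ⁅x, y⁆ z := by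
  apply class2_closure
  rintro x ⟨r, hr, hx⟩ y ⟨r', hr', hy⟩ z ⟨r'', hr'', hz⟩
  rcases hx with rfl | rfl <;> rcases hy with rfl | rfl
  · rw [(h.th_th r hr r' hr').commutator_eq]; exact Commute.one_left _
  · rcases hz with rfl | rfl
    · exact h.c_th r hr r' hr' r'' hr''
    · exact h.c_et r hr r' hr' r'' hr''
  · rw [← commutatorElement_inv]
    rcases hz with rfl | rfl
    · exact (h.c_th r' hr' r hr r'' hr'').inv_left
    · exact (h.c_et r' hr' r hr r'' hr'').inv_left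
  · rw [(h.et_et r hr r' hr').commutator_eq]; exact Commute.one_left _

theorem closure (h : Pre S) : Pre (Subgroup.closure S : Set (G × G)) := by
  have hth : ∀ x ∈ Subgroup.closure (Prod.fst '' S), ∀ y ∈ Subgroup.closure (Prod.fst '' S),
      Commute x y := by
    apply comm_closure
    rintro _ ⟨r, hr, rfl⟩ _ ⟨r', hr', rfl⟩
    exact h.th_th r hr r' hr'
  have het : ∀ x ∈ Subgroup.closure (Prod.snd '' S), ∀ y ∈ Subgroup.closure (Prod.snd '' S),
      Commute x y := by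
    apply comm_closure
    rintro _ ⟨r, hr, rfl⟩ _ ⟨r', hr', rfl⟩
    exact h.et_et r hr r' hr'
  have hsq : ∀ r ∈ Subgroup.closure S, r.1 * r.1 = 1 ∧ r.2 * r.2 = 1 := by
    intro r hr
    induction hr using Subgroup.closure_induction with
    | mem s hs => exact ⟨h.th_sq s hs, h.et_sq s hs⟩
    | one => exact ⟨mul_one _, mul_one _⟩
    | mul a b ha' hb' ha hb =>
      have h1 := hth _ (fst_mem ha') _ (fst_mem hb')
      have h2 := het _ (snd_mem ha') _ (snd_mem hb')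
      refine ⟨?_, ?_⟩
      · rw [Prod.fst_mul, mul_assoc, ← mul_assoc b.1, ← h1.eq, mul_assoc a.1, hb.1, mul_one, ha.1]
      · rw [Prod.snd_mul, mul_assoc, ← mul_assoc b.2, ← h2.eq, mul_assoc a.2, hb.2, mul_one, ha.2]
    | inv a _ ha =>
      refine ⟨?_, ?_⟩
      · rw [Prod.fst_inv, ← mul_inv_rev, ha.1, inv_one]
      · rw [Prod.snd_inv, ← mul_inv_rev, ha.2, inv_one]
  have hinv : ∀ r ∈ Subgroup.closure S, r⁻¹ = r := by
    intro r hr
    obtain ⟨h1, h2⟩ := hsq r hr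
    ext
    · exact inv_eq_of_mul_eq_one_left h1
    · exact inv_eq_of_mul_eq_one_left h2
  have hc := h.class2
  have f1 : ∀ r ∈ Subgroup.closure S, r.1 ∈ Subgroup.closure (ent S) :=
    fun r hr => fst_ent S (fst_mem hr)
  have f2 : ∀ r ∈ Subgroup.closure S, r.2 ∈ Subgroup.closure (ent S) :=
    fun r hr => snd_ent S (snd_mem hr)
  have key : ∀ r ∈ Subgroup.closure S, ∀ s ∈ Subgroup.closure S, ∀ r' ∈ Subgroup.closure S,
      ⁅r.1, r'.2⁆ = ⁅r'.1, r.2⁆ → ⁅s.1, r'.2⁆ = ⁅r'.1, s.2⁆ →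
      ⁅(r * s).1, r'.2⁆ = ⁅r'.1, (r * s).2⁆ := by
    intro r hr s hs r' hr' e1 e2
    have c1 : Commute r.1 ⁅s.1, r'.2⁆ := (hc _ (f1 s hs) _ (f2 r' hr') _ (f1 r hr)).symm
    have c2 : Commute r.2 ⁅r'.1, s.2⁆ := (hc _ (f1 r' hr') _ (f2 s hs) _ (f2 r hr)).symm
    rw [Prod.fst_mul, Prod.snd_mul, cml' c1, cmr' c2, e1, e2]
    have c3 : Commute ⁅r'.1, r.2⁆ r'.1 := hc _ (f1 r' hr') _ (f2 r hr) _ (f1 r' hr')
    have c4 : Commute ⁅r'.1, r.2⁆ s.2 := hc _ (f1 r' hr') _ (f2 r hr) _ (f2 s hs)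
    rw [commutatorElement_def r'.1 s.2]
    exact (((c3.mul_right c4).mul_right c3.inv_right).mul_right c4.inv_right).eq.symm
  have hsymm1 : ∀ r' ∈ S, ∀ r ∈ Subgroup.closure S, ⁅r.1, r'.2⁆ = ⁅r'.1, r.2⁆ := by
    intro r' hr' r hr
    induction hr using Subgroup.closure_induction with
    | mem s hs => exact h.symm s hs r' hr'
    | one => simp
    | mul a b ha' hb' ha hb => exact key a ha' b hb' r' (Subgroup.subset_closure hr') ha hb
    | inv a ha' ha => rw [hinv a ha']; exact ha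
  have hsymm : ∀ r ∈ Subgroup.closure S, ∀ r' ∈ Subgroup.closure S, ⁅r.1, r'.2⁆ = ⁅r'.1, r.2⁆ := by
    intro r hr r' hr'
    induction hr' using Subgroup.closure_induction with
    | mem s hs => exact hsymm1 s hs r hr
    | one => simp
    | mul a b ha' hb' ha hb => exact (key a ha' b hb' r hr ha.symm hb.symm).symm
    | inv a ha' ha => rw [hinv a ha']; exact ha
  exact
    { th_sq := fun r hr => (hsq r hr).1
      et_sq := fun r hr => (hsq r hr).2
      th_th := fun r hr r' hr' => hth _ (fst_mem hr) _ (fst_mem hr')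
      et_et := fun r hr r' hr' => het _ (snd_mem hr) _ (snd_mem hr')
      c_th := fun r hr r' hr' r'' hr'' => hc _ (f1 r hr) _ (f2 r' hr') _ (f1 r'' hr'')
      c_et := fun r hr r' hr' r'' hr'' => hc _ (f1 r hr) _ (f2 r' hr') _ (f2 r'' hr'')
      symm := hsymm }

theorem mono (h : Pre S) {S' : Set (G × G)} (hS : S' ⊆ S) : Pre S' where
  th_sq := fun r hr => h.th_sq r (hS hr)
  et_sq := fun r hr => h.et_sq r (hS hr)
  th_th := fun r hr r' hr' => h.th_th r (hS hr) r' (hS hr')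
  et_et := fun r hr r' hr' => h.et_et r (hS hr) r' (hS hr')
  c_th := fun r hr r' hr' r'' hr'' => h.c_th r (hS hr) r' (hS hr') r'' (hS hr'')
  c_et := fun r hr r' hr' r'' hr'' => h.c_et r (hS hr) r' (hS hr') r'' (hS hr'')
  symm := fun r hr r' hr' => h.symm r (hS hr) r' (hS hr')

end Pre

lemma conj_comm_iff (g x y : G) : g * ⁅x, y⁆ * g⁻¹ = ⁅g * x * g⁻¹, g * y * g⁻¹⁆ := by
  simp only [commutatorElement_def]; group

lemma commute_conj_iff (g : G) {x y : G} : Commute (g * x * g⁻¹) (g * y * g⁻¹) ↔ Commute x y := by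
  constructor
  · intro h
    have := h.eq
    unfold Commute SemiconjBy
    have h2 : g * (x * y) * g⁻¹ = g * (y * x) * g⁻¹ := by
      calc g * (x * y) * g⁻¹ = (g * x * g⁻¹) * (g * y * g⁻¹) := by group
        _ = (g * y * g⁻¹) * (g * x * g⁻¹) := this
        _ = g * (y * x) * g⁻¹ := by group
    exact mul_left_cancel (mul_right_cancel h2)
  · intro h
    unfold Commute SemiconjBy
    calc (g * x * g⁻¹) * (g * y * g⁻¹) = g * (x * y) * g⁻¹ := by group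
      _ = g * (y * x) * g⁻¹ := by rw [h.eq]
      _ = (g * y * g⁻¹) * (g * x * g⁻¹) := by group

lemma conj2_mul (g h : G) (r : G × G) : conj2 (g * h) r = conj2 g (conj2 h r) := by
  rw [map_mul, MulAut.mul_apply]

/-- the elements `m` of the (commutative) subgroup `T` with `m K m⁻¹ ≤ K` -/
def MM (K : Subgroup (G × G)) (T : Subgroup G) : Set G := {m | m ∈ T ∧ ∀ r ∈ K, conj2 m r ∈ K}

lemma MM.one (K : Subgroup (G × G)) (T : Subgroup G) : (1 : G) ∈ MM K T :=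
  ⟨T.one_mem, fun r hr => by simpa using hr⟩

lemma MM.mul {K : Subgroup (G × G)} {T : Subgroup G} {m n : G} (hm : m ∈ MM K T)
    (hn : n ∈ MM K T) : m * n ∈ MM K T :=
  ⟨T.mul_mem hm.1 hn.1, fun r hr => by rw [conj2_mul]; exact hm.2 _ (hn.2 _ hr)⟩

/-- `⋃_m m⁻¹ K m`, `m ∈ MM K T` -/
def unionM (K : Subgroup (G × G)) (T : Subgroup G) (hT : ∀ x ∈ T, ∀ y ∈ T, Commute x y) :
    Subgroup (G × G) where
  carrier := {r | ∃ m ∈ MM K T, conj2 m r ∈ K}
  mul_mem' := by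
    rintro a b ⟨m, hm, ha⟩ ⟨n, hn, hb⟩
    refine ⟨n * m, MM.mul hn hm, ?_⟩
    rw [map_mul]
    refine K.mul_mem ?_ ?_
    · rw [conj2_mul]; exact hn.2 _ ha
    · rw [(hT n hn.1 m hm.1).eq, conj2_mul]; exact hm.2 _ hb
  one_mem' := ⟨1, MM.one K T, by rw [map_one]; exact K.one_mem⟩
  inv_mem' := by
    rintro a ⟨m, hm, ha⟩
    exact ⟨m, hm, by rw [map_inv]; exact K.inv_mem ha⟩

section unionM

variable {K : Subgroup (G × G)} {T : Subgroup G} {hT : ∀ x ∈ T, ∀ y ∈ T, Commute x y}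

lemma mem_unionM {r : G × G} : r ∈ unionM K T hT ↔ ∃ m ∈ MM K T, conj2 m r ∈ K := Iff.rfl

lemma le_unionM : K ≤ unionM K T hT := fun r hr => ⟨1, MM.one K T, by simpa using hr⟩

/-- every element of `T` is a quotient of elements of `MM` when `T` is generated by elements of `MM` -/
lemma MM.quot {S : Set G} (hTS : T = Subgroup.closure S) (hS : ∀ s ∈ S, s ∈ MM K T)
    (hT : ∀ x ∈ T, ∀ y ∈ T, Commute x y) {τ : G} (hτ : τ ∈ T) : ∃ m ∈ MM K T, m * τ ∈ MM K T := by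
  have key : ∀ τ ∈ Subgroup.closure S, τ ∈ T ∧ ∃ m ∈ MM K T, m * τ ∈ MM K T := by
    intro τ hτ
    induction hτ using Subgroup.closure_induction with
    | mem s hs => exact ⟨(hS s hs).1, 1, MM.one K T, by rw [one_mul]; exact hS s hs⟩
    | one => exact ⟨T.one_mem, 1, MM.one K T, by rw [one_mul]; exact MM.one K T⟩
    | mul a b _ _ ha hb =>
      obtain ⟨ha', m, hm, hma⟩ := ha
      obtain ⟨hb', n, hn, hnb⟩ := hb
      refine ⟨T.mul_mem ha' hb', m * n, MM.mul hm hn, ?_⟩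
      have : m * n * (a * b) = (m * a) * (n * b) := by
        rw [mul_assoc, ← mul_assoc n, (hT n hn.1 a ha').eq]; group
      rw [this]
      exact MM.mul hma hnb
    | inv a _ ha =>
      obtain ⟨ha', m, hm, hma⟩ := ha
      exact ⟨T.inv_mem ha', m * a, hma, by rw [mul_inv_cancel_right]; exact hm⟩
  exact (key τ (hTS ▸ hτ)).2

/-- `unionM` is stable under `T` when `T` is generated by elements of `MM` -/
lemma unionM_T {S : Set G} (hTS : T = Subgroup.closure S) (hS : ∀ s ∈ S, s ∈ MM K T) {τ : G}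
    (hτ : τ ∈ T) {r : G × G} (hr : r ∈ unionM K T hT) : conj2 τ r ∈ unionM K T hT := by
  obtain ⟨m, hm, hmr⟩ := hr
  obtain ⟨n, hn, hnτ⟩ := MM.quot hTS hS hT hτ
  refine ⟨n * m, MM.mul hn hm, ?_⟩
  rw [← conj2_mul]
  have : n * m * τ = (n * τ) * m := by
    rw [mul_assoc, (hT m hm.1 τ hτ).eq, mul_assoc]
  rw [this, conj2_mul]
  exact hnτ.2 _ hmr

/-- `unionM` is stable under `g` when `g` commutes with `T` and maps `K` to itself -/
lemma unionM_comm {g : G} (hg : ∀ x ∈ T, Commute g x) (hK : ∀ r ∈ K, conj2 g r ∈ K) {r : G × G}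
    (hr : r ∈ unionM K T hT) : conj2 g r ∈ unionM K T hT := by
  obtain ⟨m, hm, hmr⟩ := hr
  refine ⟨m, hm, ?_⟩
  rw [← conj2_mul, ← (hg m hm.1).eq, conj2_mul]
  exact hK _ hmr

/-- `unionM` is stable under `g` when `g` normalises `T` and `K` -/
lemma unionM_norm {g : G} (hg : ∀ x ∈ T, g * x * g⁻¹ ∈ T) (hK : ∀ r ∈ K, conj2 g r ∈ K)
    (hK' : ∀ r ∈ K, conj2 g⁻¹ r ∈ K) {r : G × G}
    (hr : r ∈ unionM K T hT) : conj2 g r ∈ unionM K T hT := by
  obtain ⟨m, hm, hmr⟩ := hr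
  refine ⟨g * m * g⁻¹, ⟨hg m hm.1, ?_⟩, ?_⟩
  · intro k hk
    rw [conj2_mul, conj2_mul]
    exact hK _ (hm.2 _ (hK' _ hk))
  · rw [← conj2_mul, inv_mul_cancel_right, conj2_mul]
    exact hK _ hmr

end unionM

theorem Pre.union {K : Subgroup (G × G)} (h : Pre (K : Set (G × G))) (T : Subgroup G)
    (hT : ∀ x ∈ T, ∀ y ∈ T, Commute x y) : Pre (unionM K T hT : Set (G × G)) := by
  have c1 : ∀ (m : G) (r : G × G), (conj2 m r).1 = m * r.1 * m⁻¹ :=
    fun m r => by rw [conj2_apply]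
  have c2 : ∀ (m : G) (r : G × G), (conj2 m r).2 = m * r.2 * m⁻¹ :=
    fun m r => by rw [conj2_apply]
  have two : ∀ r ∈ unionM K T hT, ∀ r' ∈ unionM K T hT, ∃ m ∈ MM K T, conj2 m r ∈ K ∧
      conj2 m r' ∈ K := by
    rintro r ⟨m, hm, hr⟩ r' ⟨n, hn, hr'⟩
    refine ⟨n * m, MM.mul hn hm, ?_, ?_⟩
    · rw [conj2_mul]; exact hn.2 _ hr
    · rw [(hT n hn.1 m hm.1).eq, conj2_mul]; exact hm.2 _ hr'
  have three : ∀ r ∈ unionM K T hT, ∀ r' ∈ unionM K T hT, ∀ r'' ∈ unionM K T hT,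
      ∃ m, conj2 m r ∈ K ∧ conj2 m r' ∈ K ∧ conj2 m r'' ∈ K := by
    intro r hr r' hr' r'' hr''
    obtain ⟨m, hm, h1, h2⟩ := two r hr r' hr'
    obtain ⟨n, hn, h3⟩ := hr''
    refine ⟨n * m, ?_, ?_, ?_⟩
    · rw [conj2_mul]; exact hn.2 _ h1
    · rw [conj2_mul]; exact hn.2 _ h2
    · rw [(hT n hn.1 m hm.1).eq, conj2_mul]; exact hm.2 _ h3
  constructor
  · rintro r ⟨m, hm, hN⟩
    have := h.th_sq _ hN
    rw [c1] at this
    have h2 : m * (r.1 * r.1) * m⁻¹ = 1 := by rw [← this]; group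
    exact (conj_eq_one_iff).1 h2
  · rintro r ⟨m, hm, hN⟩
    have := h.et_sq _ hN
    rw [c2] at this
    have h2 : m * (r.2 * r.2) * m⁻¹ = 1 := by rw [← this]; group
    exact (conj_eq_one_iff).1 h2
  · intro r hr r' hr'
    obtain ⟨m, hm, h1, h2⟩ := two r hr r' hr'
    have := h.th_th _ h1 _ h2
    rw [c1, c1] at this
    exact (commute_conj_iff _).1 this
  · intro r hr r' hr'
    obtain ⟨m, hm, h1, h2⟩ := two r hr r' hr'
    have := h.et_et _ h1 _ h2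
    rw [c2, c2] at this
    exact (commute_conj_iff _).1 this
  · intro r hr r' hr' r'' hr''
    obtain ⟨m, h1, h2, h3⟩ := three r hr r' hr' r'' hr''
    have := h.c_th _ h1 _ h2 _ h3
    rw [c1, c1, c2, ← conj_comm_iff] at this
    exact (commute_conj_iff _).1 this
  · intro r hr r' hr' r'' hr''
    obtain ⟨m, h1, h2, h3⟩ := three r hr r' hr' r'' hr''
    have := h.c_et _ h1 _ h2 _ h3
    rw [c1, c2, c2, ← conj_comm_iff] at this
    exact (commute_conj_iff _).1 this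
  · intro r hr r' hr'
    obtain ⟨m, hm, h1, h2⟩ := two r hr r' hr'
    have := h.symm _ h1 _ h2
    rw [c1, c1, c2, c2, ← conj_comm_iff, ← conj_comm_iff] at this
    exact mul_left_cancel (mul_right_cancel this)

/-- `sn` is multiplicative on a subgroup -/
theorem Pre.sn_mul {Γ : Subgroup (G × G)} (h : Pre (Γ : Set (G × G))) {a b : G × G} (ha : a ∈ Γ)
    (hb : b ∈ Γ) : sn (a * b) = sn a * sn b := by
  have hc := h.class2
  have f1 : ∀ r ∈ Γ, r.1 ∈ Subgroup.closure (ent (Γ : Set (G × G))) :=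
    fun r hr => Subgroup.subset_closure ⟨r, hr, Or.inl rfl⟩
  have f2 : ∀ r ∈ Γ, r.2 ∈ Subgroup.closure (ent (Γ : Set (G × G))) :=
    fun r hr => Subgroup.subset_closure ⟨r, hr, Or.inr rfl⟩
  have e : ⁅a.1, b.2⁆ * ⁅a.1, b.2⁆ = 1 := by
    have : ⁅a.1 * a.1, b.2⁆ = ⁅a.1, b.2⁆ * ⁅a.1, b.2⁆ :=
      cml' (hc _ (f1 a ha) _ (f2 b hb) _ (f1 a ha)).symm
    rw [← this, h.th_sq a ha, commutatorElement_one_left]
  unfold sn
  rw [Prod.fst_mul, Prod.snd_mul,
    cml' (hc _ (f1 b hb) _ (Subgroup.mul_mem _ (f2 a ha) (f2 b hb)) _ (f1 a ha)).symm,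
    cmr' (hc _ (f1 b hb) _ (f2 b hb) _ (f2 a ha)).symm,
    cmr' (hc _ (f1 a ha) _ (f2 b hb) _ (f2 a ha)).symm, h.symm b hb a ha]
  have hcomm : ∀ x ∈ Subgroup.closure (ent (Γ : Set (G × G))), Commute ⁅a.1, b.2⁆ x :=
    fun x hx => hc _ (f1 a ha) _ (f2 b hb) x hx
  have hcomm2 : ∀ x ∈ Subgroup.closure (ent (Γ : Set (G × G))), Commute ⁅b.1, b.2⁆ x :=
    fun x hx => hc _ (f1 b hb) _ (f2 b hb) x hx
  have m1 : ⁅b.1, b.2⁆ ∈ Subgroup.closure (ent (Γ : Set (G × G))) := by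
    rw [commutatorElement_def]
    exact Subgroup.mul_mem _ (Subgroup.mul_mem _ (Subgroup.mul_mem _ (f1 b hb) (f2 b hb))
      (Subgroup.inv_mem _ (f1 b hb))) (Subgroup.inv_mem _ (f2 b hb))
  have m2 : ⁅a.1, a.2⁆ ∈ Subgroup.closure (ent (Γ : Set (G × G))) := by
    rw [commutatorElement_def]
    exact Subgroup.mul_mem _ (Subgroup.mul_mem _ (Subgroup.mul_mem _ (f1 a ha) (f2 a ha))
      (Subgroup.inv_mem _ (f1 a ha))) (Subgroup.inv_mem _ (f2 a ha))
  have k1 := (hcomm _ m1).eq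
  have k2 := (hcomm _ m2).eq
  have k3 := (hcomm2 _ m2).eq
  calc ⁅a.1, b.2⁆ * ⁅b.1, b.2⁆ * (⁅a.1, a.2⁆ * ⁅a.1, b.2⁆)
      = ⁅b.1, b.2⁆ * (⁅a.1, b.2⁆ * ⁅a.1, a.2⁆) * ⁅a.1, b.2⁆ := by rw [k1]; group
    _ = ⁅b.1, b.2⁆ * ⁅a.1, a.2⁆ * (⁅a.1, b.2⁆ * ⁅a.1, b.2⁆) := by rw [k2]; group
    _ = ⁅a.1, a.2⁆ * ⁅b.1, b.2⁆ := by rw [e, mul_one, k3]

/-- signs commute with all entries -/
theorem Pre.sn_comm {Γ : Subgroup (G × G)} (h : Pre (Γ : Set (G × G))) {a b : G × G} (ha : a ∈ Γ)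
    (hb : b ∈ Γ) : Commute (sn a) b.1 ∧ Commute (sn a) b.2 :=
  ⟨h.c_th a ha a ha b hb, h.c_et a ha a ha b hb⟩

theorem Pre.inv {Γ : Subgroup (G × G)} (h : Pre (Γ : Set (G × G))) {r : G × G} (hr : r ∈ Γ) :
    r⁻¹ = r := by
  ext
  · exact inv_eq_of_mul_eq_one_left (h.th_sq r hr)
  · exact inv_eq_of_mul_eq_one_left (h.et_sq r hr)

/-- the version of `unionM` for the powers of one element -/
theorem Pre.reach {Γ K : Subgroup (G × G)} (h : Pre (K : Set (G × G))) (g : G)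
    (hg : ∀ r ∈ K, conj2 g r ∈ K) (hr : ∀ r ∈ Γ, ∃ k : ℕ, conj2 (g ^ k) r ∈ K) :
    Pre (Γ : Set (G × G)) := by
  let T := Subgroup.zpowers g
  have hT : ∀ x ∈ T, ∀ y ∈ T, Commute x y := by
    rintro _ ⟨i, rfl⟩ _ ⟨j, rfl⟩
    exact (Commute.refl g).zpow_zpow i j
  refine (h.union T hT).mono ?_
  intro r hr'
  obtain ⟨k, hk⟩ := hr r hr'
  refine ⟨g ^ k, ⟨Subgroup.pow_mem _ (Subgroup.mem_zpowers g) k, ?_⟩, hk⟩
  clear hk
  induction k with
  | zero => intro r hr; simpa using hr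
  | succ k ih => intro r hr; rw [pow_succ, conj2_mul]; exact ih _ (hg _ hr)

end Pool.Agent.H75.FS
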