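import Pool.Agent.H86.FS.Rels

/-!
# A finite presentation from finitely many words
-/

set_option autoImplicit false

open scoped commutatorElement
open Pool.Agent.H86.FS

namespace Pool.Agent.H75.FS

variable {r : ℕ}

/-- generators from a vector -/
def mkG {G : Type} (v : Fin (17 + r) → G) : Gens G r where
  t := v (Fin.castAdd r 0)
  u1 := v (Fin.castAdd r 1)
  u2 := v (Fin.castAdd r 2)
  s := fun i => v (Fin.natAdd 17 i)
  th := v (Fin.castAdd r 3)
  et := v (Fin.castAdd r 4)
  d := v (Fin.castAdd r 5)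
  sg := v (Fin.castAdd r 6)
  X := v (Fin.castAdd r 7)
  Y := v (Fin.castAdd r 8)
  ph := v (Fin.castAdd r 9)
  J1 := v (Fin.castAdd r 10)
  J2 := v (Fin.castAdd r 11)
  a := v (Fin.castAdd r 12)
  b := v (Fin.castAdd r 13)
  D := v (Fin.castAdd r 14)
  S := v (Fin.castAdd r 15)
  m := v (Fin.castAdd r 16)

/-- the vector of the generators -/
def vec {G : Type} (g : Gens G r) : Fin (17 + r) → G :=
  Fin.append ![g.t, g.u1, g.u2, g.th, g.et, g.d, g.sg, g.X, g.Y, g.ph, g.J1, g.J2, g.a, g.b, g.D,
    g.S, g.m] g.s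

lemma mkG_vec {G : Type} (g : Gens G r) : mkG (vec g) = g := by
  unfold mkG vec
  simp only [Fin.append_left, Fin.append_right]
  rfl

lemma mkG_map {G G' : Type} (f : G → G') (v : Fin (17 + r) → G) :
    (mkG v).map f = mkG (fun i => f (v i)) := rfl

theorem pres_of_words (I : Type) [Finite I]
    (rel : ∀ {G : Type} [Group G], Gens G r → I → G)
    (nat : ∀ {G G' : Type} [Group G] [Group G'] (f : G →* G') (g : Gens G r) (i : I),
      rel (g.map f) i = f (rel g i))
    (hR : ∀ {G : Type} [Group G] (g : Gens G r), Rels g ↔ ∀ i, rel g i = 1) :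
    ∃ (m k : ℕ) (rels : Fin k → FreeGroup (Fin m))
    (g : Gens (PresentedGroup (Set.range rels)) r), Rels g ∧
    Subgroup.closure g.set = ⊤ ∧
    ∀ (G' : Type) [Group G'] (g' : Gens G' r), Rels g' →
      ∃ f : PresentedGroup (Set.range rels) →* G', g.map f = g' := by
  obtain ⟨k, ⟨e⟩⟩ := Finite.exists_equiv_fin I
  let g₀ : Gens (FreeGroup (Fin (17 + r))) r := mkG FreeGroup.of
  let rels : Fin k → FreeGroup (Fin (17 + r)) := fun j => rel g₀ (e.symm j)
  let g : Gens (PresentedGroup (Set.range rels)) r := mkG PresentedGroup.of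
  have hg : g = g₀.map (PresentedGroup.mk (Set.range rels)) := rfl
  refine ⟨17 + r, k, rels, g, ?_, ?_, ?_⟩
  · rw [hR]
    intro i
    rw [hg, nat]
    have : rel g₀ i ∈ Set.range rels := ⟨e i, by simp [rels]⟩
    exact PresentedGroup.one_of_mem this
  · rw [eq_top_iff, ← PresentedGroup.closure_range_of]
    apply Subgroup.closure_mono
    rintro _ ⟨j, rfl⟩
    induction j using Fin.addCases with
    | left j =>
      left
      fin_cases j <;> simp [g, mkG]
    | right i => exact Or.inr ⟨i, rfl⟩
  · intro G' _ g' hg'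
    have hl : g₀.map (FreeGroup.lift (vec g')) = g' := by
      rw [mkG_map]
      simp only [FreeGroup.lift_apply_of]
      exact mkG_vec g'
    have h : ∀ w ∈ Set.range rels, FreeGroup.lift (vec g') w = 1 := by
      rintro _ ⟨j, rfl⟩
      show FreeGroup.lift (vec g') (rel g₀ (e.symm j)) = 1
      rw [← nat, hl]
      exact (hR g').1 hg' _
    refine ⟨PresentedGroup.toGroup h, ?_⟩
    rw [mkG_map]
    simp only [PresentedGroup.toGroup.of]
    exact mkG_vec g'

end Pool.Agent.H75.FS
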