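import Pool.Agent.H75.FS.Pres

/-!
# The relations are finitely many words
-/

set_option autoImplicit false

open scoped commutatorElement
open Pool.Agent.H86.FS

namespace Pool.Agent.H75.FS

variable {r : ℕ}

/-- natural words -/
def NW (w : ∀ (G : Type) [Group G], Gens G r → G) : Prop :=
  ∀ (G G' : Type) [Group G] [Group G'] (f : G →* G') (g : Gens G r), w G' (g.map f) = f (w G g)

/-- a property of generators given by finitely many words -/
def F (P : ∀ (G : Type) [Group G], Gens G r → Prop) : Prop :=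
  ∃ (I : Type) (_ : Finite I) (rel : ∀ (G : Type) [Group G], Gens G r → I → G),
    (∀ (G G' : Type) [Group G] [Group G'] (f : G →* G') (g : Gens G r) (i : I),
      rel G' (g.map f) i = f (rel G g i)) ∧
    ∀ (G : Type) [Group G] (g : Gens G r), P G g ↔ ∀ i, rel G g i = 1

lemma F.congr {P Q : ∀ (G : Type) [Group G], Gens G r → Prop}
    (h : ∀ (G : Type) [Group G] (g : Gens G r), P G g ↔ Q G g) (hQ : F Q) : F P := by
  obtain ⟨I, hI, rel, nat, e⟩ := hQ
  exact ⟨I, hI, rel, nat, fun G _ g => (h G g).trans (e G g)⟩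

lemma F.eq {w₁ w₂ : ∀ (G : Type) [Group G], Gens G r → G} (h₁ : NW w₁) (h₂ : NW w₂) :
    F (fun G _ g => w₁ G g = w₂ G g) := by
  refine ⟨Unit, inferInstance, fun G _ g _ => w₁ G g * (w₂ G g)⁻¹, ?_, ?_⟩
  · intro G G' _ _ f g _
    simp only [h₁ G G' f g, h₂ G G' f g, map_mul, map_inv]
  · intro G _ g
    simp [mul_inv_eq_one]

lemma F.comm {w₁ w₂ : ∀ (G : Type) [Group G], Gens G r → G} (h₁ : NW w₁) (h₂ : NW w₂) :
    F (fun G _ g => Commute (w₁ G g) (w₂ G g)) := by
  refine F.congr (Q := fun G _ g => w₁ G g * w₂ G g = w₂ G g * w₁ G g) (fun G _ g => Iff.rfl) ?_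
  apply F.eq
  · intro G G' _ _ f g
    simp only [h₁ G G' f g, h₂ G G' f g, map_mul]
  · intro G G' _ _ f g
    simp only [h₁ G G' f g, h₂ G G' f g, map_mul]

lemma F.true : F (r := r) (fun _ _ _ => True) :=
  ⟨Empty, inferInstance, fun _ _ _ i => i.elim, fun _ _ _ _ _ _ i => i.elim, fun _ _ _ => by simp⟩

lemma F.and {P Q : ∀ (G : Type) [Group G], Gens G r → Prop} (hP : F P) (hQ : F Q) :
    F (fun G _ g => P G g ∧ Q G g) := by
  obtain ⟨I, hI, rel, nat, e⟩ := hP
  obtain ⟨J, hJ, rel', nat', e'⟩ := hQ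
  refine ⟨I ⊕ J, inferInstance, fun G _ g => Sum.elim (rel G g) (rel' G g), ?_, ?_⟩
  · rintro G G' _ _ f g (i | j)
    · exact nat G G' f g i
    · exact nat' G G' f g j
  · intro G _ g
    have h1 := e G g
    have h2 := e' G g
    constructor
    · rintro ⟨hp, hq⟩ (i | j)
      · exact h1.1 hp i
      · exact h2.1 hq j
    · intro h
      exact ⟨h1.2 fun i => h (Sum.inl i), h2.2 fun j => h (Sum.inr j)⟩

lemma F.all {J : Type} [Finite J] {P : ∀ (G : Type) [Group G], J → Gens G r → Prop}
    (h : ∀ j, F (fun G _ g => P G j g)) : F (fun G _ g => ∀ j, P G j g) := by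
  choose I hI rel nat e using h
  refine ⟨Σ j, I j, inferInstance, fun G _ g i => rel i.1 G g i.2, ?_, ?_⟩
  · rintro G G' _ _ f g ⟨j, i⟩
    exact nat j G G' f g i
  · intro G _ g
    simp only [Sigma.forall]
    exact forall_congr' fun j => e j G g

mk_iff_of_inductive_prop Pool.Agent.H86.FS.BRel Pool.Agent.H75.FS.brel_iff
mk_iff_of_inductive_prop Pool.Agent.H86.FS.CRel Pool.Agent.H75.FS.crel_iff
mk_iff_of_inductive_prop Pool.Agent.H86.FS.TRel Pool.Agent.H75.FS.trel_iff
mk_iff_of_inductive_prop Pool.Agent.H86.FS.Rels Pool.Agent.H75.FS.rels_iff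


theorem F_BRel : F (r := r) (fun _ _ g => BRel g) := by
  refine F.congr (fun G _ g => brel_iff g) ?_
  simp only [List.mem_cons, List.not_mem_nil, or_false, forall_eq_or_imp, forall_eq]
  repeat' first
    | refine F.and ?_ ?_
    | refine F.all (fun j => ?_)
    | refine F.comm ?_ ?_
    | refine F.eq ?_ ?_
  all_goals
    intro G G' _ _ f g
    simp [Gens.map, cj, Gens.rho, Gens.sb, Gens.sb', Gens.Z, Gens.letter, map_commutatorElement]

theorem F_CRel (c : ∀ (G : Type) [Group G], Gens G r → G) (hc : NW c) :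
    F (r := r) (fun G _ g => CRel g (c G g)) := by
  refine F.congr (fun G _ g => crel_iff g (c G g)) ?_
  simp only [List.mem_cons, List.not_mem_nil, or_false, forall_eq_or_imp, forall_eq]
  repeat' first
    | refine F.and ?_ ?_
    | refine F.all (fun j => ?_)
    | refine F.comm ?_ ?_
    | refine F.eq ?_ ?_
  all_goals
    intro G G' _ _ f g
    have := hc G G' f g
    try simp only [this]
    try simp only [Gens.map, cj, Gens.rho, Gens.sb, Gens.Z, map_commutatorElement, map_mul,
      map_inv, map_pow, map_one]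

theorem F_TRel : F (r := r) (fun _ _ g => TRel g) := by
  refine F.congr (fun G _ g => trel_iff g) ?_
  simp only [List.mem_cons, List.not_mem_nil, or_false, forall_eq_or_imp, forall_eq]
  repeat' first
    | refine F.and ?_ ?_
    | refine F.all (fun j => ?_)
    | refine F.comm ?_ ?_
    | refine F.eq ?_ ?_
  all_goals
    intro G G' _ _ f g
    simp [Gens.map, cj, Gens.rho, Gens.sb, Gens.sb', Gens.Z, Gens.letter, map_commutatorElement]

theorem F_Rels : F (r := r) (fun _ _ g => Rels g) := by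
  refine F.congr (fun G _ g => rels_iff g) ?_
  exact F.and F_BRel (F.and (F_CRel (fun G _ g => g.a) (fun G G' _ _ f g => rfl))
    (F.and (F_CRel (fun G _ g => g.b) (fun G G' _ _ f g => rfl)) F_TRel))

theorem finPres' (r : ℕ) : ∃ (m k : ℕ) (rels : Fin k → FreeGroup (Fin m))
    (g : Gens (PresentedGroup (Set.range rels)) r), Rels g ∧
    Subgroup.closure g.set = ⊤ ∧
    ∀ (G' : Type) [Group G'] (g' : Gens G' r), Rels g' →
      ∃ f : PresentedGroup (Set.range rels) →* G', g.map f = g' := by
  obtain ⟨I, hI, rel, nat, e⟩ := F_Rels (r := r)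
  exact pres_of_words I (fun {G} _ g => rel G g) (fun {G G'} _ _ f g i => nat G G' f g i)
    (fun {G} _ g => e G g)

end Pool.Agent.H75.FS
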